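import Pool.Agent.H21.BS.TB

/-!
# Row (MOM): the fourth moment of the number of prime divisors in `Q`
-/

set_option autoImplicit false

open Finset

namespace Pool.Agent.H89.BS

open Pool.Agent.H21.BS (T_CNT T_MOM)

/-- the points of the window divisible by all elements of `D` -/
def mom_F (a N : ℕ) (D : Finset ℕ) : Finset ℕ :=
  (range N).filter (fun x => ∀ q ∈ D, q ∣ a + x)

/-- the number of elements of `Q` which divide `n` -/
def mom_nu (Q : Finset ℕ) (n : ℕ) : ℝ := ((Q.filter fun q => q ∣ n).card : ℝ)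

theorem mom_nu_nonneg (Q : Finset ℕ) (n : ℕ) : 0 ≤ mom_nu Q n := Nat.cast_nonneg _

theorem mom_nu_eq (Q : Finset ℕ) (n : ℕ) :
    mom_nu Q n = ∑ q ∈ Q, if q ∣ n then (1 : ℝ) else 0 := by
  unfold mom_nu
  rw [Finset.card_filter]
  push_cast
  rfl

theorem mom_insert (a N : ℕ) (D : Finset ℕ) (q : ℕ) :
    mom_F a N (insert q D) = (mom_F a N D).filter (fun x => q ∣ a + x) := by
  unfold mom_F
  ext x
  simp only [Finset.mem_filter, Finset.mem_range, Finset.forall_mem_insert]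
  tauto

theorem mom_step (Q : Finset ℕ) (a N k : ℕ) (D : Finset ℕ) :
    ∑ x ∈ mom_F a N D, mom_nu Q (a + x) ^ (k + 1) =
      ∑ q ∈ Q, ∑ x ∈ mom_F a N (insert q D), mom_nu Q (a + x) ^ k := by
  have h1 : ∀ x, mom_nu Q (a + x) ^ (k + 1) =
      ∑ q ∈ Q, if q ∣ a + x then mom_nu Q (a + x) ^ k else 0 := by
    intro x
    rw [pow_succ]
    nth_rewrite 2 [mom_nu_eq]
    rw [Finset.mul_sum]
    apply Finset.sum_congr rfl
    intro q _
    split_ifs <;> simp
  rw [Finset.sum_congr rfl fun x _ => h1 x, Finset.sum_comm]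
  apply Finset.sum_congr rfl
  intro q _
  rw [mom_insert, Finset.sum_filter]

theorem mom_prod_le (D : Finset ℕ) (N : ℕ) (hN : 1 ≤ N) (hD : D.card ≤ 4)
    (h : ∀ q ∈ D, q ^ 200 ≤ N) : ∏ q ∈ D, q ≤ N := by
  have h1 : (∏ q ∈ D, q) ^ 200 ≤ N ^ 200 := by
    rw [← Finset.prod_pow]
    calc ∏ q ∈ D, q ^ 200 ≤ ∏ _q ∈ D, N := Finset.prod_le_prod' h
      _ = N ^ D.card := by rw [Finset.prod_const]
      _ ≤ N ^ 200 := Nat.pow_le_pow_right hN (by omega)
  exact (Nat.pow_le_pow_iff_left (by norm_num)).mp h1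

theorem mom_zero (hCNT : T_CNT) (Q : Finset ℕ) (a N : ℕ) (hp : ∀ q ∈ Q, q.Prime)
    (hq : ∀ q ∈ Q, q ^ 200 ≤ N) (hN : 1 ≤ N) (D : Finset ℕ) (hD : D ⊆ Q) (hc : D.card ≤ 4) :
    ((mom_F a N D).card : ℝ) ≤ 2 * N / ((∏ q ∈ D, q : ℕ) : ℝ) := by
  set m : ℕ := ∏ q ∈ D, q with hm
  have hm1 : 1 ≤ m := Nat.one_le_iff_ne_zero.mpr
    (Finset.prod_ne_zero_iff.mpr fun q hqD => (hp q (hD hqD)).ne_zero)
  have hmN : m ≤ N := mom_prod_le D N hN hc fun q hqD => hq q (hD hqD)
  have hmR : (1 : ℝ) ≤ m := by exact_mod_cast hm1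
  have h1 : ((mom_F a N D).card : ℝ) ≤ (N : ℝ) / m + 1 := by
    apply hCNT N m _ hm1 (Finset.filter_subset _ _)
    intro x hx y hy
    rw [Finset.mem_filter] at hx hy
    rw [hm, Nat.cast_prod]
    apply Finset.prod_dvd_of_coprime
    · intro p hpD q hqD hpq
      have h2 : Nat.Coprime p q := (Nat.coprime_primes (hp p (hD hpD)) (hp q (hD hqD))).mpr hpq
      exact Nat.isCoprime_iff_coprime.mpr h2
    · intro q hqD
      have h2 : ((q : ℕ) : ℤ) ∣ ((a + x : ℕ) : ℤ) := by exact_mod_cast hx.2 q hqD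
      have h3 : ((q : ℕ) : ℤ) ∣ ((a + y : ℕ) : ℤ) := by exact_mod_cast hy.2 q hqD
      have h4 := dvd_sub h2 h3
      push_cast at h4
      have h5 : ((a : ℤ) + x - (a + y)) = (x : ℤ) - y := by ring
      rw [h5] at h4
      exact h4
  have h2 : (1 : ℝ) ≤ (N : ℝ) / m := by
    rw [le_div_iff₀ (by linarith), one_mul]
    exact_mod_cast hmN
  calc ((mom_F a N D).card : ℝ) ≤ (N : ℝ) / m + 1 := h1
    _ ≤ (N : ℝ) / m + (N : ℝ) / m := by linarith
    _ = 2 * N / m := by ring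

theorem mom_main (hCNT : T_CNT) (Q : Finset ℕ) (W : ℝ) (a N : ℕ) (hp : ∀ q ∈ Q, q.Prime)
    (hq : ∀ q ∈ Q, q ^ 200 ≤ N) (hN : 1 ≤ N) (hW : ∑ q ∈ Q, 1 / (q : ℝ) ≤ W) : ∀ k : ℕ,
    ∀ D : Finset ℕ, D ⊆ Q → D.card + k ≤ 4 →
      ∑ x ∈ mom_F a N D, mom_nu Q (a + x) ^ k ≤
        2 * N / ((∏ q ∈ D, q : ℕ) : ℝ) * ((D.card : ℝ) + k + W) ^ k := by
  have hW0 : 0 ≤ W := le_trans (Finset.sum_nonneg fun q _ => by positivity) hW
  intro k
  induction k with
  | zero =>
    intro D hD hc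
    simp only [pow_zero, Finset.sum_const, nsmul_eq_mul, mul_one]
    exact mom_zero hCNT Q a N hp hq hN D hD (by omega)
  | succ k ih =>
    intro D hD hc
    rw [mom_step]
    set m : ℕ := ∏ q ∈ D, q with hm
    set E : ℝ := 2 * N / (m : ℝ) * ((D.card : ℝ) + k + 1 + W) ^ k with hE
    have hE0 : 0 ≤ E := by positivity
    have hterm : ∀ q ∈ Q, ∑ x ∈ mom_F a N (insert q D), mom_nu Q (a + x) ^ k ≤
        E * ((if q ∈ D then (1 : ℝ) else 0) + 1 / (q : ℝ)) := by
      intro q hqQ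
      by_cases hqD : q ∈ D
      · rw [if_pos hqD, Finset.insert_eq_of_mem hqD]
        have h1 := ih D hD (by omega)
        have h2 : ((D.card : ℝ) + k + W) ^ k ≤ ((D.card : ℝ) + k + 1 + W) ^ k :=
          pow_le_pow_left₀ (by positivity) (by linarith) k
        have h3 : 2 * N / (m : ℝ) * ((D.card : ℝ) + k + W) ^ k ≤ E :=
          mul_le_mul_of_nonneg_left h2 (by positivity)
        have h4 : 0 ≤ E * (1 / (q : ℝ)) := by positivity
        calc ∑ x ∈ mom_F a N D, mom_nu Q (a + x) ^ k ≤ E := h1.trans h3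
          _ ≤ E * (1 + 1 / (q : ℝ)) := by linarith
      · rw [if_neg hqD, zero_add]
        have h1 := ih (insert q D) (Finset.insert_subset hqQ hD)
          (by rw [Finset.card_insert_of_notMem hqD]; omega)
        rw [Finset.card_insert_of_notMem hqD, Finset.prod_insert hqD, ← hm] at h1
        refine h1.trans (le_of_eq ?_)
        rw [hE]
        push_cast
        have hq0 : (q : ℝ) ≠ 0 := by exact_mod_cast (hp q hqQ).ne_zero
        have hm0 : (m : ℝ) ≠ 0 := by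
          have : m ≠ 0 := Finset.prod_ne_zero_iff.mpr fun r hr => (hp r (hD hr)).ne_zero
          exact_mod_cast this
        have h2 : ((D.card : ℝ) + 1 + k + W) = ((D.card : ℝ) + k + 1 + W) := by ring
        rw [h2]
        field_simp
    refine (Finset.sum_le_sum hterm).trans ?_
    rw [← Finset.mul_sum, Finset.sum_add_distrib]
    have h5 : ∑ q ∈ Q, (if q ∈ D then (1 : ℝ) else 0) = D.card := by
      rw [← Finset.sum_filter, Finset.filter_mem_eq_inter, Finset.inter_eq_right.mpr hD]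
      simp
    rw [h5]
    have h6 : (D.card : ℝ) + ∑ q ∈ Q, 1 / (q : ℝ) ≤ (D.card : ℝ) + k + 1 + W := by
      have : (0 : ℝ) ≤ k := Nat.cast_nonneg k
      linarith
    calc E * ((D.card : ℝ) + ∑ q ∈ Q, 1 / (q : ℝ)) ≤ E * ((D.card : ℝ) + k + 1 + W) :=
          mul_le_mul_of_nonneg_left h6 hE0
      _ = 2 * N / (m : ℝ) * ((D.card : ℝ) + ((k + 1 : ℕ) : ℝ) + W) ^ (k + 1) := by
          rw [hE]
          push_cast
          ring

theorem pf_MOM (hCNT : T_CNT) : T_MOM := by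
  intro Q W a N hp hq hN hW
  have h := mom_main hCNT Q W a N hp hq hN hW 4 ∅ (Finset.empty_subset _) (by simp)
  have h1 : mom_F a N ∅ = range N := by
    unfold mom_F
    rw [Finset.filter_true_of_mem]
    intro x _ q hq
    exact absurd hq (Finset.notMem_empty q)
  rw [h1] at h
  simp only [Finset.card_empty, Finset.prod_empty, Nat.cast_one, Nat.cast_zero, zero_add,
    div_one] at h
  push_cast at h
  unfold mom_nu at h
  calc ∑ x ∈ range N, (((Q.filter fun q => q ∣ a + x).card : ℝ)) ^ 4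
      ≤ 2 * N * (4 + W) ^ 4 := h
    _ = 2 * (4 + W) ^ 4 * N := by ring

end Pool.Agent.H89.BS
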